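import Mathlib
import Pool.Agent.Helper226.LociDefs
import Pool.Agent.Helper226.VCDefs

set_option autoImplicit false

open scoped TensorProduct
open CategoryTheory AlgebraicGeometry
open Pool.Agent.Helper226

universe u

namespace Pool.Agent.W455.Elem

/-- The subset `Z` of the Hilbert scheme of `d` points of affine `n`-space is elementary: a general
point of `Z` is a subscheme supported at one point. That is, there is a nonempty relatively open
subset `Z ∩ U` of `Z` such that the subscheme of every `k`-point of `Z ∩ U` is supported at a
single point `v` of affine `n`-space. -/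
def IsElementary {k : Type u} [Field k] {n d : ℕ}
    (𝓗 : HilbertScheme k (MvPolynomial (Fin n) k) d) (Z : Set 𝓗.H) : Prop :=
  ∃ U : Set 𝓗.H, IsOpen U ∧ (Z ∩ U).Nonempty ∧
    ∀ f : PointsOver k 𝓗.H 𝓗.s k, Set.range f.1 ⊆ Z ∩ U →
      ∃ v : Fin n → k, (𝓗.idealOf f).radical = pointIdeal v

end Pool.Agent.W455.Elem
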