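import Mathlib
import Pool.Agent.Helper226.LociPts

set_option autoImplicit false
set_option linter.unusedSectionVars false

open scoped TensorProduct
open Pool.Agent.Helper226

universe u

namespace Pool.Agent.W455.Elem

section rank
variable (k : Type u) [Field k] {K : Type u} [Field K] [Algebra k K]

/-- the rank of a set in the matroid of algebraic independence -/
noncomputable def rk (s : Set K) : ℕ∞ := (AlgebraicIndependent.matroid k K).eRk s

lemma rk_le_of_algebraic {s t : Set K} (h : ∀ x ∈ s, IsAlgebraic (Algebra.adjoin k t) x) :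
    rk k s ≤ rk k t := by
  unfold rk
  rw [← (AlgebraicIndependent.matroid k K).eRk_closure_eq t]
  apply (AlgebraicIndependent.matroid k K).eRk_mono
  intro x hx
  rw [AlgebraicIndependent.matroid_closure_eq]
  exact h x hx

lemma rk_union_le (s t : Set K) : rk k (s ∪ t) ≤ rk k s + rk k t :=
  (AlgebraicIndependent.matroid k K).eRk_union_le_eRk_add_eRk s t

lemma rk_le_encard (s : Set K) : rk k s ≤ s.encard :=
  (AlgebraicIndependent.matroid k K).eRk_le_encard s

lemma rk_mono {s t : Set K} (h : s ⊆ t) : rk k s ≤ rk k t :=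
  (AlgebraicIndependent.matroid k K).eRk_mono h

lemma le_rk_of_algebraicIndependent {ι : Type*} {x : ι → K} (hx : AlgebraicIndependent k x)
    {s : Set K} (hs : ∀ i, x i ∈ s) : ENat.card ι ≤ rk k s := by
  have h1 : (AlgebraicIndependent.matroid k K).Indep (Set.range x) := by
    rw [AlgebraicIndependent.matroid_indep_iff]
    exact AlgebraicIndependent.to_subtype_range hx
  have h2 := h1.eRk_eq_encard
  have h3 : (Set.range x).encard = ENat.card ι := by
    rw [← Set.image_univ, hx.injective.encard_image, Set.encard_univ]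
  rw [← h3, ← h2]
  apply rk_mono
  rintro _ ⟨i, rfl⟩
  exact hs i

lemma isAlgebraic_of_mem_adjoin {t : Set K} {x : K} (hx : x ∈ IntermediateField.adjoin k t) :
    IsAlgebraic (Algebra.adjoin k t) x := by
  obtain ⟨a, ha, b, hb, rfl⟩ := IntermediateField.mem_adjoin_iff_div.1 hx
  have h1 : IsAlgebraic (Algebra.adjoin k t) a :=
    isAlgebraic_algebraMap (A := K) (⟨a, ha⟩ : Algebra.adjoin k t)
  have h2 : IsAlgebraic (Algebra.adjoin k t) b :=
    isAlgebraic_algebraMap (A := K) (⟨b, hb⟩ : Algebra.adjoin k t)
  rw [div_eq_mul_inv]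
  exact h1.mul (IsAlgebraic.inv_iff.2 h2)

end rank

section charts
variable {k : Type u} [Field k] {B : Type u} [CommRing B] [Algebra k B] {d : ℕ}
variable {b : Fin d → B} {K : Type u} [Field K] [Algebra k K]

/-- the set of the coordinates of a chart datum over a field -/
def coords (c : Chart k b K) : Set K := Set.range fun p : B × Fin d => c.q p.1 p.2

lemma mem_coords (c : Chart k b K) (x : B) (j : Fin d) : c.q x j ∈ coords c := ⟨(x, j), rfl⟩

/-- the transcendence degree of the field of definition -/
noncomputable def dlt (c : Chart k b K) : ℕ∞ := rk k (coords c)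

lemma q_eq_clf (c : Chart k b K) (x : B) (j : Fin d) : c.q x j = clf c ((uc k b).q x j) := by
  conv_lhs => rw [← uc_map_clf c]
  rfl

/-- semicontinuity -/
lemma dlt_le_of_ker_le {K₀ : Type u} [Field K₀] [Algebra k K₀] (c₀ : Chart k b K₀)
    (c : Chart k b K) (h : ∀ f, clf c₀ f = 0 → clf c f = 0) : dlt c ≤ dlt c₀ := by
  unfold dlt
  conv_lhs => unfold rk
  rw [Matroid.eRk_le_iff]
  intro I hI hind
  rw [AlgebraicIndependent.matroid_indep_iff] at hind
  have h1 : ∀ x : I, ∃ p : B × Fin d, clf c ((uc k b).q p.1 p.2) = x.1 := by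
    intro x
    obtain ⟨p, hp⟩ := hI x.2
    exact ⟨p, by rw [← q_eq_clf]; exact hp⟩
  choose p hp using h1
  have h2 : AlgebraicIndependent k (fun x : I => clf c₀ ((uc k b).q (p x).1 (p x).2)) := by
    rw [algebraicIndependent_iff]
    intro P hP
    have h3 : (MvPolynomial.aeval fun x : I => clf c₀ ((uc k b).q (p x).1 (p x).2)) P =
        clf c₀ (MvPolynomial.aeval (fun x : I => (uc k b).q (p x).1 (p x).2) P) := by
      rw [← AlgHom.comp_apply, MvPolynomial.comp_aeval]
    rw [h3] at hP
    have h4 := h _ hP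
    rw [← AlgHom.comp_apply, MvPolynomial.comp_aeval] at h4
    have h5 : AlgebraicIndependent k (fun x : I => clf c ((uc k b).q (p x).1 (p x).2)) := by
      have h6 : (fun x : I => clf c ((uc k b).q (p x).1 (p x).2)) = fun x : I => x.1 := by
        funext x
        exact hp x
      rw [h6]
      exact hind
    exact (algebraicIndependent_iff.1 h5) P h4
  have h3 := le_rk_of_algebraicIndependent k h2 (s := coords c₀) (fun x => by
    rw [← q_eq_clf]
    exact mem_coords _ _ _)
  exact h3

end charts

section descent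

variable {F K : Type u} [Field F] [Field K] [Algebra F K]

/-- a linear system over a subfield with a unique solution has its solution in the subfield -/
lemma linear_descent {m n : Type} [Fintype m] [Fintype n] [DecidableEq n] [DecidableEq m]
    (M : Matrix m n F)
    (hinj : ∀ v : n → K, (M.map (algebraMap F K)).mulVec v = 0 → v = 0) (v : n → K) (w : m → F)
    (h : (M.map (algebraMap F K)).mulVec v = fun i => algebraMap F K (w i)) (j : n) :
    v j ∈ (algebraMap F K).range := by
  have h1 : Function.Injective (Matrix.toLin' M) := by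
    rw [← LinearMap.ker_eq_bot, LinearMap.ker_eq_bot']
    intro u hu
    rw [Matrix.toLin'_apply] at hu
    have h2 : (M.map (algebraMap F K)).mulVec (fun i => algebraMap F K (u i)) = 0 := by
      funext i
      have h3 := congrArg (algebraMap F K) (congrFun hu i)
      simp only [Matrix.mulVec, dotProduct, map_sum, map_mul, Pi.zero_apply, map_zero,
        Matrix.map_apply] at h3 ⊢
      exact h3
    have h4 := hinj _ h2
    funext i
    have h5 := congrFun h4 i
    simp only [Pi.zero_apply, map_eq_zero] at h5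
    exact h5
  obtain ⟨g, hg⟩ := LinearMap.exists_leftInverse_of_injective _ (LinearMap.ker_eq_bot.2 h1)
  have h2 : LinearMap.toMatrix' g * M = 1 := by
    have h3 := congrArg LinearMap.toMatrix' hg
    rw [LinearMap.toMatrix'_comp, LinearMap.toMatrix'_toLin', LinearMap.toMatrix'_id] at h3
    exact h3
  have h3 : (LinearMap.toMatrix' g).map (algebraMap F K) * M.map (algebraMap F K) = 1 := by
    rw [← Matrix.map_mul, h2, Matrix.map_one _ (map_zero _) (map_one _)]
  have h4 : v = ((LinearMap.toMatrix' g).map (algebraMap F K)).mulVec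
      (fun i => algebraMap F K (w i)) := by
    rw [← h, Matrix.mulVec_mulVec, h3, Matrix.one_mulVec]
  rw [h4]
  refine ⟨∑ i, LinearMap.toMatrix' g j i * w i, ?_⟩
  rw [map_sum]
  simp only [Matrix.mulVec, dotProduct, Matrix.map_apply, map_mul]

end descent

section split
variable {k : Type u} [Field k] {B : Type u} [CommRing B] [Algebra k B] {d d₁ d₂ : ℕ}
variable {b : Fin d → B} {b₁ : Fin d₁ → B} {b₂ : Fin d₂ → B} {K : Type u} [Field K] [Algebra k K]

/-- the intersection of two ideals is defined over the compositum of the fields of definition -/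
lemma dlt_inf_le (c : Chart k b K) (c₁ : Chart k b₁ K) (c₂ : Chart k b₂ K)
    (h : c.ideal = c₁.ideal ⊓ c₂.ideal) : dlt c ≤ dlt c₁ + dlt c₂ := by
  refine le_trans ?_ (rk_union_le k (coords c₁) (coords c₂))
  apply rk_le_of_algebraic
  rintro _ ⟨⟨x, j⟩, rfl⟩
  apply isAlgebraic_of_mem_adjoin
  set F := IntermediateField.adjoin k (coords c₁ ∪ coords c₂) with hF
  have hF1 : ∀ y l, c₁.q y l ∈ F := fun y l =>
    IntermediateField.subset_adjoin k _ (Or.inl (mem_coords c₁ y l))
  have hF2 : ∀ y l, c₂.q y l ∈ F := fun y l =>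
    IntermediateField.subset_adjoin k _ (Or.inr (mem_coords c₂ y l))
  let M : Matrix (Fin d₁ ⊕ Fin d₂) (Fin d) F :=
    Matrix.of fun i j => Sum.elim (fun l => (⟨c₁.q (b j) l, hF1 _ _⟩ : F))
      (fun l => ⟨c₂.q (b j) l, hF2 _ _⟩) i
  let w : Fin d₁ ⊕ Fin d₂ → F := Sum.elim (fun l => (⟨c₁.q x l, hF1 _ _⟩ : F))
      (fun l => ⟨c₂.q x l, hF2 _ _⟩)
  have hM1 : ∀ (v : Fin d → K) l, (M.map (algebraMap F K)).mulVec v (Sum.inl l) =
      c₁.L (Chart.expand K b v) l := by
    intro v l
    rw [Chart.expand_apply, map_sum, Finset.sum_apply]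
    simp only [Chart.L_tmul, Pi.smul_apply, smul_eq_mul]
    simp only [Matrix.mulVec, dotProduct, Matrix.map_apply]
    refine Finset.sum_congr rfl fun i _ => ?_
    rw [mul_comm]
    rfl
  have hM2 : ∀ (v : Fin d → K) l, (M.map (algebraMap F K)).mulVec v (Sum.inr l) =
      c₂.L (Chart.expand K b v) l := by
    intro v l
    rw [Chart.expand_apply, map_sum, Finset.sum_apply]
    simp only [Chart.L_tmul, Pi.smul_apply, smul_eq_mul]
    simp only [Matrix.mulVec, dotProduct, Matrix.map_apply]
    refine Finset.sum_congr rfl fun i _ => ?_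
    rw [mul_comm]
    rfl
  have hinj : ∀ v : Fin d → K, (M.map (algebraMap F K)).mulVec v = 0 → v = 0 := by
    intro v hv
    have h1 : Chart.expand K b v ∈ c.ideal := by
      rw [h]
      refine ⟨?_, ?_⟩
      · change c₁.L _ = 0
        funext l
        rw [← hM1, hv]
        rfl
      · change c₂.L _ = 0
        funext l
        rw [← hM2, hv]
        rfl
    rw [Chart.mem_ideal, Chart.L_expand] at h1
    exact h1
  have hsub := c.sub_expand_mem (1 ⊗ₜ x)
  rw [h] at hsub
  obtain ⟨hs1, hs2⟩ := hsub
  have hs1' : c₁.L ((1 : K) ⊗ₜ[k] x - Chart.expand K b (c.L (1 ⊗ₜ x))) = 0 := hs1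
  have hs2' : c₂.L ((1 : K) ⊗ₜ[k] x - Chart.expand K b (c.L (1 ⊗ₜ x))) = 0 := hs2
  rw [map_sub, sub_eq_zero, Chart.L_tmul, one_smul, Chart.L_tmul, one_smul] at hs1' hs2'
  have hw : (M.map (algebraMap F K)).mulVec (c.q x) = fun i => algebraMap F K (w i) := by
    funext i
    rcases i with l | l
    · rw [hM1, ← hs1']
      rfl
    · rw [hM2, ← hs2']
      rfl
  obtain ⟨y, hy⟩ := linear_descent M hinj (c.q x) w hw j
  change c.q x j ∈ F
  rw [← hy]
  exact y.2

end split

end Pool.Agent.W455.Elem
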