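import Mathlib
import Pool.Agent.W455.Elem.Rk

set_option autoImplicit false
set_option linter.unusedSectionVars false

open scoped TensorProduct
open Pool.Agent.Helper226

universe u

namespace Pool.Agent.W455.Elem

section bas
variable {k : Type u} [Field k] {B : Type u} [CommRing B] [Algebra k B]
variable {K : Type u} [Field K] [Algebra k K]

lemma exists_isBas (J : Ideal (K ⊗[k] B)) (hfin : Module.Finite K ((K ⊗[k] B) ⧸ J)) :
    ∃ b : Fin (Module.finrank K ((K ⊗[k] B) ⧸ J)) → B, IsBas b J := by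
  have hFP : Module.FinitePresentation K ((K ⊗[k] B) ⧸ J) :=
    Module.finitePresentation_of_projective K _
  obtain ⟨κ, a, bs, hbs⟩ := Module.exists_basis_of_span_of_flat
    (fun x : B => Ideal.Quotient.mk J ((1 : K) ⊗ₜ[k] x)) (span_range_v (k := k) (B := B) J)
  have hfin : Finite κ := Module.Finite.finite_basis bs
  have : Fintype κ := Fintype.ofFinite κ
  have hcard : Fintype.card κ = Module.finrank K ((K ⊗[k] B) ⧸ J) := by
    rw [Module.finrank_eq_card_basis bs]
  let e : Fin (Module.finrank K ((K ⊗[k] B) ⧸ J)) ≃ κ := (Fintype.equivFinOfCardEq hcard).symm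
  refine ⟨fun i => a (e i), isBas_of_bijective ?_⟩
  let bs' := bs.reindex e.symm
  have hbs' : ∀ i, bs' i = Ideal.Quotient.mk J ((1 : K) ⊗ₜ[k] a (e i)) := by
    intro i
    simp [bs', hbs]
  have h1 : gen J (fun i => a (e i)) = bs'.equivFun.symm.toLinearMap := by
    ext i
    simp [gen, Chart.expand, Module.Basis.equivFun_symm_apply, hbs', Pi.single_apply]
  rw [h1]
  exact bs'.equivFun.symm.bijective

end bas

section alg
variable {K : Type u} [Field K] [IsAlgClosed K] {A : Type u} [CommRing A] [Algebra K A]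

/-- a finite quotient in which an element has two eigenvalues splits -/
lemma exists_split (I : Ideal A) (hfin : Module.Finite K (A ⧸ I)) (x : A)
    (h : ∀ (a : K) (N : ℕ), (x - algebraMap K A a) ^ N ∉ I) :
    ∃ J₁ J₂ : Ideal A, J₁ ⊔ J₂ = ⊤ ∧ J₁ ≠ ⊤ ∧ J₂ ≠ ⊤ ∧ I = J₁ ⊓ J₂ := by
  have hI : I ≠ ⊤ := by
    intro h0
    apply h 0 0
    rw [h0]
    trivial
  have hnt : Nontrivial (A ⧸ I) := Ideal.Quotient.nontrivial_iff.2 hI
  set y : A ⧸ I := Ideal.Quotient.mk I x with hy
  have hint : IsIntegral K y := Algebra.IsIntegral.isIntegral y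
  set μ := minpoly K y with hμ
  have hμ0 : μ ≠ 0 := minpoly.ne_zero hint
  have hdeg : 0 < μ.degree := minpoly.degree_pos hint
  obtain ⟨a, ha⟩ := IsAlgClosed.exists_root μ hdeg.ne'
  obtain ⟨g, hg1, hg2⟩ := Polynomial.exists_eq_pow_rootMultiplicity_mul_and_not_dvd μ hμ0 a
  set m := Polynomial.rootMultiplicity a μ with hm
  have hm1 : 0 < m := (Polynomial.rootMultiplicity_pos hμ0).2 ha
  have hg0 : g ≠ 0 := by
    rintro rfl
    exact hg2 (dvd_zero _)
  have hcop : IsCoprime ((Polynomial.X - Polynomial.C a) ^ m) g := by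
    apply IsCoprime.pow_left
    exact ((Polynomial.irreducible_X_sub_C a).coprime_iff_not_dvd).2 hg2
  set u := (y - algebraMap K (A ⧸ I) a) ^ m with hu
  set w := Polynomial.aeval y g with hw
  have hu' : Polynomial.aeval y ((Polynomial.X - Polynomial.C a) ^ m) = u := by
    simp [hu]
  have huw : u * w = 0 := by
    have h1 : Polynomial.aeval y μ = 0 := minpoly.aeval K y
    rw [hg1, map_mul, hu'] at h1
    exact h1
  obtain ⟨α, β, hαβ⟩ := hcop
  have hbez : Polynomial.aeval y α * u + Polynomial.aeval y β * w = 1 := by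
    have h1 := congrArg (Polynomial.aeval y) hαβ
    rw [map_add, map_mul, map_mul, hu', map_one] at h1
    exact h1
  have hdegm : ((Polynomial.X - Polynomial.C a) ^ m).natDegree = m := by
    rw [Polynomial.natDegree_pow, Polynomial.natDegree_X_sub_C, mul_one]
  have hpow0 : (Polynomial.X - Polynomial.C a) ^ m ≠ 0 :=
    pow_ne_zero _ (Polynomial.X_sub_C_ne_zero a)
  have hdegμ : μ.natDegree = m + g.natDegree := by
    conv_lhs => rw [hg1]
    rw [Polynomial.natDegree_mul hpow0 hg0, hdegm]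
  have hw1 : ¬ IsUnit w := by
    intro hunit
    have h1 : u = 0 := by
      have := hunit.mul_left_eq_zero.1 huw
      exact this
    apply h a m
    rw [← Ideal.Quotient.eq_zero_iff_mem, map_pow, map_sub]
    exact h1
  have hu1 : ¬ IsUnit u := by
    intro hunit
    have h1 : w = 0 := by
      have := hunit.mul_right_eq_zero.1 huw
      exact this
    have h2 : μ ∣ g := minpoly.dvd K y h1
    have h3 := Polynomial.natDegree_le_of_dvd h2 hg0
    omega
  refine ⟨(Ideal.span {u}).comap (Ideal.Quotient.mk I), (Ideal.span {w}).comap (Ideal.Quotient.mk I),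
    ?_, ?_, ?_, ?_⟩
  · rw [Ideal.eq_top_iff_one]
    obtain ⟨z, hz⟩ := Ideal.Quotient.mk_surjective (Polynomial.aeval y α * u)
    have h1 : z ∈ (Ideal.span {u}).comap (Ideal.Quotient.mk I) := by
      rw [Ideal.mem_comap, hz]
      exact Ideal.mul_mem_left _ _ (Ideal.mem_span_singleton_self u)
    have h2 : 1 - z ∈ (Ideal.span {w}).comap (Ideal.Quotient.mk I) := by
      rw [Ideal.mem_comap, map_sub, map_one, hz, ← hbez, add_sub_cancel_left]
      exact Ideal.mul_mem_left _ _ (Ideal.mem_span_singleton_self w)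
    refine Submodule.mem_sup.2 ⟨z, h1, 1 - z, h2, ?_⟩
    ring
  · intro h0
    rw [Ideal.comap_eq_top_iff, Ideal.span_singleton_eq_top] at h0
    exact hu1 h0
  · intro h0
    rw [Ideal.comap_eq_top_iff, Ideal.span_singleton_eq_top] at h0
    exact hw1 h0
  · rw [← Ideal.comap_inf]
    have h1 : Ideal.span {u} ⊓ Ideal.span {w} = ⊥ := by
      rw [eq_bot_iff]
      rintro z ⟨hz1, hz2⟩
      obtain ⟨s, rfl⟩ := Ideal.mem_span_singleton'.1 hz1
      obtain ⟨t, ht⟩ := Ideal.mem_span_singleton'.1 hz2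
      rw [Ideal.mem_bot]
      calc s * u = s * u * (Polynomial.aeval y α * u + Polynomial.aeval y β * w) := by
            rw [hbez, mul_one]
        _ = Polynomial.aeval y α * u * (s * u) + s * Polynomial.aeval y β * (u * w) := by ring
        _ = Polynomial.aeval y α * u * (t * w) + s * Polynomial.aeval y β * (u * w) := by rw [ht]
        _ = Polynomial.aeval y α * t * (u * w) + s * Polynomial.aeval y β * (u * w) := by ring
        _ = 0 := by rw [huw]; ring
    rw [h1, ← RingHom.ker_eq_comap_bot, Ideal.mk_ker]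

/-- the dimensions of the two parts -/
lemma finrank_split (I J₁ J₂ : Ideal A) (hfin : Module.Finite K (A ⧸ I)) (h1 : J₁ ⊔ J₂ = ⊤)
    (h2 : J₁ ≠ ⊤) (h3 : J₂ ≠ ⊤) (h4 : I = J₁ ⊓ J₂) :
    Module.Finite K (A ⧸ J₁) ∧ Module.Finite K (A ⧸ J₂) ∧
    0 < Module.finrank K (A ⧸ J₁) ∧ 0 < Module.finrank K (A ⧸ J₂) ∧
    Module.finrank K (A ⧸ J₁) + Module.finrank K (A ⧸ J₂) = Module.finrank K (A ⧸ I) := by
  have hle1 : I ≤ J₁ := by rw [h4]; exact inf_le_left
  have hle2 : I ≤ J₂ := by rw [h4]; exact inf_le_right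
  let f1 : (A ⧸ I) →ₐ[K] (A ⧸ J₁) := Ideal.Quotient.factorₐ K hle1
  let f2 : (A ⧸ I) →ₐ[K] (A ⧸ J₂) := Ideal.Quotient.factorₐ K hle2
  have hs1 : Function.Surjective f1 := Ideal.Quotient.factor_surjective hle1
  have hs2 : Function.Surjective f2 := Ideal.Quotient.factor_surjective hle2
  have hf1 : Module.Finite K (A ⧸ J₁) := Module.Finite.of_surjective f1.toLinearMap hs1
  have hf2 : Module.Finite K (A ⧸ J₂) := Module.Finite.of_surjective f2.toLinearMap hs2
  have hn1 : Nontrivial (A ⧸ J₁) := Ideal.Quotient.nontrivial_iff.2 h2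
  have hn2 : Nontrivial (A ⧸ J₂) := Ideal.Quotient.nontrivial_iff.2 h3
  refine ⟨hf1, hf2, Module.finrank_pos, Module.finrank_pos, ?_⟩
  let f : (A ⧸ I) →ₗ[K] (A ⧸ J₁) × (A ⧸ J₂) := f1.toLinearMap.prod f2.toLinearMap
  have hmk1 : ∀ z, f1 (Ideal.Quotient.mk I z) = Ideal.Quotient.mk J₁ z := fun z => rfl
  have hmk2 : ∀ z, f2 (Ideal.Quotient.mk I z) = Ideal.Quotient.mk J₂ z := fun z => rfl
  have hinj : Function.Injective f := by
    rw [← LinearMap.ker_eq_bot, LinearMap.ker_eq_bot']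
    intro z hz
    obtain ⟨z, rfl⟩ := Ideal.Quotient.mk_surjective z
    have e1 : f1 (Ideal.Quotient.mk I z) = 0 := congrArg Prod.fst hz
    have e2 : f2 (Ideal.Quotient.mk I z) = 0 := congrArg Prod.snd hz
    rw [hmk1, Ideal.Quotient.eq_zero_iff_mem] at e1
    rw [hmk2, Ideal.Quotient.eq_zero_iff_mem] at e2
    rw [Ideal.Quotient.eq_zero_iff_mem, h4]
    exact ⟨e1, e2⟩
  have hsurj : Function.Surjective f := by
    rintro ⟨z1, z2⟩
    obtain ⟨z1, rfl⟩ := Ideal.Quotient.mk_surjective z1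
    obtain ⟨z2, rfl⟩ := Ideal.Quotient.mk_surjective z2
    have h5 : z1 - z2 ∈ J₁ ⊔ J₂ := by rw [h1]; trivial
    obtain ⟨s, hs, t, ht, hst⟩ := Submodule.mem_sup.1 h5
    refine ⟨Ideal.Quotient.mk I (z1 - s), ?_⟩
    apply Prod.ext
    · change f1 (Ideal.Quotient.mk I (z1 - s)) = _
      rw [hmk1, map_sub, Ideal.Quotient.eq_zero_iff_mem.2 hs, sub_zero]
    · change f2 (Ideal.Quotient.mk I (z1 - s)) = _
      have h6 : z1 - s = z2 + t := by
        rw [sub_eq_iff_eq_add, add_assoc, add_comm t s, hst]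
        ring
      rw [hmk2, h6, map_add, Ideal.Quotient.eq_zero_iff_mem.2 ht, add_zero]
  let e := LinearEquiv.ofBijective f ⟨hinj, hsurj⟩
  rw [e.finrank_eq, Module.finrank_prod]

end alg

section chart
variable {k : Type u} [Field k] {B : Type u} [CommRing B] [Algebra k B] {d : ℕ}
variable {b : Fin d → B} {K : Type u} [Field K] [Algebra k K]

lemma finite_chart (c : Chart k b K) : Module.Finite K ((K ⊗[k] B) ⧸ c.ideal) ∧
    Module.finrank K ((K ⊗[k] B) ⧸ c.ideal) = d := by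
  have h := gen_bijective (I := c.ideal) (b := b) ⟨c, rfl⟩
  let e : (Fin d → K) ≃ₗ[K] ((K ⊗[k] B) ⧸ c.ideal) := LinearEquiv.ofBijective _ h
  exact ⟨Module.Finite.equiv e, by rw [← e.finrank_eq, Module.finrank_fin_fun]⟩

/-- a chart datum over an algebraically closed field at which some element of `B` has two values
splits into two smaller ones -/
theorem chart_split [IsAlgClosed K] (c : Chart k b K) (x : B)
    (h : ∀ (a : K) (N : ℕ), ((1 : K) ⊗ₜ[k] x - a ⊗ₜ[k] (1 : B)) ^ N ∉ c.ideal) :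
    ∃ (d₁ d₂ : ℕ) (b₁ : Fin d₁ → B) (b₂ : Fin d₂ → B) (c₁ : Chart k b₁ K) (c₂ : Chart k b₂ K),
      0 < d₁ ∧ 0 < d₂ ∧ d₁ + d₂ = d ∧ c.ideal = c₁.ideal ⊓ c₂.ideal := by
  obtain ⟨hf, hr⟩ := finite_chart c
  obtain ⟨J₁, J₂, h1, h2, h3, h4⟩ := exists_split c.ideal hf ((1 : K) ⊗ₜ[k] x) (fun a N => by
    exact h a N)
  obtain ⟨hf1, hf2, hp1, hp2, hsum⟩ := finrank_split c.ideal J₁ J₂ hf h1 h2 h3 h4
  obtain ⟨b₁, c₁, hc₁⟩ := exists_isBas J₁ hf1
  obtain ⟨b₂, c₂, hc₂⟩ := exists_isBas J₂ hf2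
  refine ⟨_, _, b₁, b₂, c₁, c₂, hp1, hp2, ?_, ?_⟩
  · rw [hsum, hr]
  · rw [hc₁, hc₂]
    exact h4

end chart

end Pool.Agent.W455.Elem
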