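import Mathlib
import Pool.Agent.W455.Elem.Split

set_option autoImplicit false
set_option linter.unusedSectionVars false

open scoped TensorProduct
open Pool.Agent.Helper226

universe u

namespace Pool.Agent.W455.Elem

section lift
variable {k : Type u} [Field k] [IsAlgClosed k] {A : Type u} [CommRing A] [Algebra k A]
variable {S : Type u} [CommRing S] [Algebra k S] [Algebra A S] [IsScalarTower k A S]

/-- extension of a `k`-point to an integral extension -/
lemma exists_lift [Algebra.IsIntegral A S] (φ : A →ₐ[k] k)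
    (hker : ∀ f, algebraMap A S f = 0 → φ f = 0) :
    ∃ ψ : S →ₐ[k] k, ∀ f, ψ (algebraMap A S f) = φ f := by
  have hP : (RingHom.ker φ).IsPrime := RingHom.ker_isPrime φ
  obtain ⟨Q, -, hQ, hQP⟩ := Ideal.exists_ideal_over_prime_of_isIntegral (RingHom.ker φ)
    (⊥ : Ideal S) (by
      intro f hf
      exact hker f hf)
  have hmk : ∀ f : A, (algebraMap A (S ⧸ Q)) f = algebraMap k (S ⧸ Q) (φ f) := by
    intro f
    have h1 : f - algebraMap k A (φ f) ∈ Q.comap (algebraMap A S) := by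
      rw [hQP, RingHom.mem_ker, map_sub, AlgHom.commutes, Algebra.algebraMap_self_apply, sub_self]
    rw [Ideal.mem_comap, map_sub, ← IsScalarTower.algebraMap_apply] at h1
    have h2 := Ideal.Quotient.eq.2 h1
    exact h2
  have hint : Algebra.IsIntegral k (S ⧸ Q) := by
    constructor
    intro s
    obtain ⟨s, rfl⟩ := Ideal.Quotient.mk_surjective s
    obtain ⟨P, hPm, hP0⟩ := Algebra.IsIntegral.isIntegral (R := A) s
    refine ⟨P.map (φ : A →+* k), hPm.map _, ?_⟩
    rw [Polynomial.eval₂_map]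
    have h3 : (algebraMap k (S ⧸ Q)).comp (φ : A →+* k) =
        (Ideal.Quotient.mk Q).comp (algebraMap A S) := by
      ext f
      exact (hmk f).symm
    rw [h3, ← Polynomial.hom_eval₂, hP0, map_zero]
  have hdom : IsDomain (S ⧸ Q) := Ideal.Quotient.isDomain Q
  have hbij : Function.Bijective (algebraMap k (S ⧸ Q)) :=
    IsAlgClosed.algebraMap_bijective_of_isIntegral
  let e : k ≃ₐ[k] (S ⧸ Q) := AlgEquiv.ofBijective (Algebra.ofId k (S ⧸ Q)) hbij
  refine ⟨e.symm.toAlgHom.comp (Ideal.Quotient.mkₐ k Q), ?_⟩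
  intro f
  change e.symm (algebraMap A (S ⧸ Q) f) = φ f
  rw [hmk, AlgEquiv.symm_apply_eq]
  rfl

end lift

section loc
variable {k : Type u} [Field k] {B : Type u} [CommRing B] [Algebra k B] {d : ℕ}
variable {b : Fin d → B} {K : Type u} [Field K] [Algebra k K]

lemma one_notMem {R : Type u} [CommRing R] [Algebra k R] [Nontrivial R] (hd : 0 < d)
    (c : Chart k b R) : (1 : R ⊗[k] B) ∉ c.ideal := by
  intro h
  have h1 := c.ideal.mul_mem_left ((1 : R) ⊗ₜ[k] b ⟨0, hd⟩) h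
  rw [mul_one, Chart.mem_ideal, Chart.L_tmul, one_smul, c.q_b] at h1
  have := congrFun h1 ⟨0, hd⟩
  simp at this

/-- the universal family is finite over its base -/
lemma exists_monic (x : B) : ∃ P : Polynomial (AR k b), P.Monic ∧
    P.eval₂ (algebraMap (AR k b) (AR k b ⊗[k] B)) ((1 : AR k b) ⊗ₜ[k] x) ∈ (uc k b).ideal := by
  have h := gen_bijective (I := (uc k b).ideal) (b := b) ⟨uc k b, rfl⟩
  let e : (Fin d → AR k b) ≃ₗ[AR k b] ((AR k b ⊗[k] B) ⧸ (uc k b).ideal) :=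
    LinearEquiv.ofBijective _ h
  have hfin : Module.Finite (AR k b) ((AR k b ⊗[k] B) ⧸ (uc k b).ideal) := Module.Finite.equiv e
  obtain ⟨P, hP1, hP2⟩ := Algebra.IsIntegral.isIntegral (R := AR k b)
    (Ideal.Quotient.mk (uc k b).ideal ((1 : AR k b) ⊗ₜ[k] x))
  refine ⟨P, hP1, ?_⟩
  rw [← Ideal.Quotient.eq_zero_iff_mem, Polynomial.hom_eval₂]
  exact hP2

lemma pow_mem_aux {A : Type u} [CommRing A] (I : Ideal A) (p v g : A) (N : ℕ) (hp : p ∈ I)
    (hv : v ^ N ∈ I) : (p - v * g) ^ N ∈ I := by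
  have h1 : p - v * g - (-(v * g)) ∣ (p - v * g) ^ N - (-(v * g)) ^ N := sub_dvd_pow_sub_pow _ _ _
  have h2 : p - v * g - (-(v * g)) = p := by ring
  rw [h2] at h1
  have h3 : (p - v * g) ^ N - (-(v * g)) ^ N ∈ I := I.mem_of_dvd h1 hp
  have h4 : (-(v * g)) ^ N ∈ I := by
    have h5 : (-(v * g)) ^ N = (-g) ^ N * v ^ N := by
      rw [← mul_pow]
      congr 1
      ring
    rw [h5]
    exact I.mul_mem_left _ hv
  have h6 := I.add_mem h3 h4
  rwa [sub_add_cancel] at h6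

/-- the value is a root of the monic polynomial -/
lemma isIntegral_value (hd : 0 < d) (c₀ : Chart k b K) (x : B) (a : K) (N : ℕ)
    (h : ((1 : K) ⊗ₜ[k] x - a ⊗ₜ[k] (1 : B)) ^ N ∈ c₀.ideal) (P : Polynomial (AR k b))
    (hP : P.eval₂ (algebraMap (AR k b) (AR k b ⊗[k] B)) ((1 : AR k b) ⊗ₜ[k] x) ∈ (uc k b).ideal) :
    P.eval₂ (clf c₀ : AR k b →+* K) a = 0 := by
  set P' := P.map (clf c₀ : AR k b →+* K) with hP'
  have h1 : Polynomial.aeval ((1 : K) ⊗ₜ[k] x) P' ∈ c₀.ideal := by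
    have h2 : c₀.ideal = (uc k b).ideal.map (bc B (clf c₀)) := by
      rw [← Chart.ideal_map, uc_map_clf]
    rw [h2]
    have h3 := Ideal.mem_map_of_mem (bc B (clf c₀)) hP
    have h4 : (bc B (clf c₀)) (P.eval₂ (algebraMap (AR k b) (AR k b ⊗[k] B))
        ((1 : AR k b) ⊗ₜ[k] x)) = Polynomial.aeval ((1 : K) ⊗ₜ[k] x) P' := by
      have h5 := Polynomial.hom_eval₂ P (algebraMap (AR k b) (AR k b ⊗[k] B))
        (bc B (clf c₀) : AR k b ⊗[k] B →+* K ⊗[k] B) ((1 : AR k b) ⊗ₜ[k] x)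
      have h6 : (bc B (clf c₀) : AR k b ⊗[k] B →+* K ⊗[k] B).comp
          (algebraMap (AR k b) (AR k b ⊗[k] B)) =
          (algebraMap K (K ⊗[k] B)).comp (clf c₀ : AR k b →+* K) := by
        apply RingHom.ext
        intro f
        simp
      have h7 : (bc B (clf c₀) : AR k b ⊗[k] B →+* K ⊗[k] B) ((1 : AR k b) ⊗ₜ[k] x) =
          (1 : K) ⊗ₜ[k] x := by simp
      rw [hP', Polynomial.aeval_def, Polynomial.eval₂_map, ← h6, ← h7]
      exact h5
    rw [h4] at h3
    exact h3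
  have h2 : (Polynomial.X - Polynomial.C a) ∣ (P' - Polynomial.C (P'.eval a)) :=
    Polynomial.X_sub_C_dvd_sub_C_eval
  obtain ⟨G, hG⟩ := h2
  have h3 : algebraMap K (K ⊗[k] B) (P'.eval a) = Polynomial.aeval ((1 : K) ⊗ₜ[k] x) P' -
      ((1 : K) ⊗ₜ[k] x - a ⊗ₜ[k] (1 : B)) * Polynomial.aeval ((1 : K) ⊗ₜ[k] x) G := by
    have h4 := congrArg (Polynomial.aeval ((1 : K) ⊗ₜ[k] x)) hG
    rw [map_sub, map_mul, map_sub, Polynomial.aeval_X, Polynomial.aeval_C, Polynomial.aeval_C] at h4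
    have h5 : algebraMap K (K ⊗[k] B) a = a ⊗ₜ[k] (1 : B) := rfl
    rw [h5] at h4
    rw [← h4]
    ring
  have h4 : (algebraMap K (K ⊗[k] B) (P'.eval a)) ^ N ∈ c₀.ideal := by
    rw [h3]
    exact pow_mem_aux _ _ _ _ _ h1 h
  rw [← Polynomial.eval_map]
  by_contra hne
  apply one_notMem hd c₀
  have h5 := c₀.ideal.mul_mem_left (algebraMap K (K ⊗[k] B) ((P'.eval a)⁻¹ ^ N)) h4
  rw [← map_pow, ← map_mul, ← mul_pow, inv_mul_cancel₀ hne, one_pow, map_one] at h5
  exact h5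

/-- specialisation of a point with a single value -/
theorem value_specializes [IsAlgClosed k] (hd : 0 < d) (c₀ : Chart k b K) (c : Chart k b k)
    (hle : ∀ f, clf c₀ f = 0 → clf c f = 0) (x : B) (a : K) (N : ℕ)
    (h : ((1 : K) ⊗ₜ[k] x - a ⊗ₜ[k] (1 : B)) ^ N ∈ c₀.ideal) :
    ∃ a' : k, (x - algebraMap k B a') ^ N ∈ c.ker := by
  obtain ⟨P, hPm, hP⟩ := exists_monic (k := k) (b := b) x
  have h0 := isIntegral_value hd c₀ x a N h P hP
  let _ : Algebra (AR k b) K := (clf c₀ : AR k b →+* K).toAlgebra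
  have htower : IsScalarTower k (AR k b) K := IsScalarTower.of_algebraMap_eq fun r =>
    ((clf c₀).commutes r).symm
  have hint : IsIntegral (AR k b) a := ⟨P, hPm, h0⟩
  let S := Algebra.adjoin (AR k b) {a}
  have hSint : Algebra.IsIntegral (AR k b) S := Algebra.IsIntegral.adjoin (by
    intro y hy
    rw [Set.mem_singleton_iff] at hy
    rw [hy]
    exact hint)
  obtain ⟨ψ, hψ⟩ := exists_lift (S := S) (clf c) (by
    intro f hf
    apply hle
    have := congrArg Subtype.val hf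
    exact this)
  let aS : S := ⟨a, Algebra.subset_adjoin rfl⟩
  let ι : S →ₐ[k] K := S.val.restrictScalars k
  let j : AR k b →ₐ[k] S := (Algebra.ofId (AR k b) S).restrictScalars k
  have hι : Function.Injective ι := Subtype.val_injective
  have hιj : ι.comp j = clf c₀ := by
    ext f
    rfl
  have hψj : ψ.comp j = clf c := by
    ext f
    exact hψ f
  let cS : Chart k b S := (uc k b).map j
  have hc₀ : cS.map ι = c₀ := by
    rw [Chart.map_map, hιj, uc_map_clf]
  have hc : cS.map ψ = c := by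
    rw [Chart.map_map, hψj, uc_map_clf]
  set y : S ⊗[k] B := ((1 : S) ⊗ₜ[k] x - aS ⊗ₜ[k] (1 : B)) ^ N with hy
  have hy1 : bc B ι y = ((1 : K) ⊗ₜ[k] x - a ⊗ₜ[k] (1 : B)) ^ N := by
    rw [hy, map_pow, map_sub]
    simp only [bc, Algebra.TensorProduct.map_tmul, map_one, AlgHom.id_apply]
    rfl
  have hyS : cS.L y = 0 := by
    funext l
    apply hι
    rw [← Chart.map_L, hc₀, hy1]
    have := congrFun (Chart.mem_ideal.1 h) l
    rw [this]
    simp
  refine ⟨ψ aS, ?_⟩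
  have hy2 : bc B ψ y = (1 : k) ⊗ₜ[k] ((x - algebraMap k B (ψ aS)) ^ N) := by
    rw [hy, map_pow, map_sub]
    simp only [bc, Algebra.TensorProduct.map_tmul, map_one, AlgHom.id_apply]
    have h5 : (ψ aS) ⊗ₜ[k] (1 : B) = (1 : k) ⊗ₜ[k] (algebraMap k B (ψ aS)) := by
      rw [Algebra.algebraMap_eq_smul_one, TensorProduct.tmul_smul, TensorProduct.smul_tmul',
        smul_eq_mul, mul_one]
    rw [h5, ← TensorProduct.tmul_sub, Algebra.TensorProduct.tmul_pow, one_pow]
  have h6 : c.L (bc B ψ y) = 0 := by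
    rw [← hc]
    funext l
    rw [Chart.map_L, hyS]
    simp
  rw [hy2, Chart.L_tmul, one_smul] at h6
  rw [Chart.mem_ker]
  exact h6

end loc

end Pool.Agent.W455.Elem
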