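import Mathlib
import Pool.Agent.W455.Elem.Loc
import Pool.Agent.W455.Elem.Def
import Pool.Agent.W455.Cub.Main

set_option autoImplicit false
set_option linter.unusedSectionVars false

open scoped TensorProduct
open CategoryTheory AlgebraicGeometry MvPolynomial
open Pool.Agent.Helper226 Pool.Agent.W455.Cub

universe u

namespace Pool.Agent.W455.Elem

section top
variable {k : Type u} [Field k] {B : Type u} [CommRing B] [Algebra k B] {d : ℕ}
variable {b : Fin d → B} {K : Type u} [Field K] [Algebra k K]

lemma closure_zK' (c₀ : Chart k b K) (z : Spec (CommRingCat.of (AR k b))) :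
    z ∈ closure {zK c₀} ↔ RingHom.ker (clf c₀) ≤ z.asIdeal := by
  have h5 := PrimeSpectrum.closure_singleton (zK c₀ : PrimeSpectrum (AR k b))
  have h6 : (closure {zK c₀} : Set (Spec (CommRingCat.of (AR k b)))) =
      PrimeSpectrum.zeroLocus (RingHom.ker (clf c₀)) := h5
  rw [h6]
  rfl

/-- a minimal prime of a chart gives an irreducible component of the Hilbert scheme -/
theorem component_of_minimal (c₀ : Chart k b K)
    (hmin : RingHom.ker (clf c₀) ∈ minimalPrimes (AR k b)) :
    closure {chartι k (Idx.single b) (zK c₀)} ∈ irreducibleComponents (HilbS k B d) := by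
  set ψ := chartι k (Idx.single b) with hψ
  set x := ψ (zK c₀) with hx
  have hC := irreducibleComponent_mem_irreducibleComponents x
  have hxC : x ∈ irreducibleComponent x := mem_irreducibleComponent
  have hopen := ψ.isOpenEmbedding
  have h1 := preimage_mem_irreducibleComponents hC hopen ⟨x, hxC, zK c₀, rfl⟩
  have h1' : (ψ ⁻¹' irreducibleComponent x : Set (PrimeSpectrum (AR k b))) ∈
      irreducibleComponents (PrimeSpectrum (AR k b)) := h1
  have h2 : closure {zK c₀} ⊆ ψ ⁻¹' irreducibleComponent x := by
    apply closure_minimal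
    · rw [Set.singleton_subset_iff]
      exact hxC
    · exact (isClosed_irreducibleComponent).preimage ψ.continuous
  have h3 : PrimeSpectrum.zeroLocus (RingHom.ker (clf c₀) : Set (AR k b)) ∈
      irreducibleComponents (PrimeSpectrum (AR k b)) := by
    rw [← PrimeSpectrum.zeroLocus_minimalPrimes]
    exact ⟨_, hmin, rfl⟩
  have h3' : (closure {zK c₀} : Set (Spec (CommRingCat.of (AR k b)))) =
      PrimeSpectrum.zeroLocus (RingHom.ker (clf c₀)) :=
    PrimeSpectrum.closure_singleton (zK c₀ : PrimeSpectrum (AR k b))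
  have h4 : (closure {zK c₀} : Set (Spec (CommRingCat.of (AR k b)))) =
      ψ ⁻¹' irreducibleComponent x := by
    apply subset_antisymm h2
    rw [h3'] at h2 ⊢
    exact h3.2 h1'.1 h2
  have h5 : irreducibleComponent x ⊆ closure {x} := by
    have h6 := subset_closure_inter_of_isPreirreducible_of_isOpen
      (S := irreducibleComponent x) (U := Set.range ψ) hC.1.2 hopen.isOpen_range
      ⟨x, hxC, zK c₀, rfl⟩
    refine h6.trans (closure_minimal ?_ isClosed_closure)
    rintro _ ⟨hy, z, rfl⟩
    have h7 : z ∈ closure {zK c₀} := by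
      rw [h4]
      exact hy
    have h8 := image_closure_subset_closure_image ψ.continuous (s := {zK c₀})
    rw [Set.image_singleton] at h8
    exact h8 ⟨z, h7, rfl⟩
  have h6 : irreducibleComponent x = closure {x} := by
    apply subset_antisymm h5
    apply closure_minimal _ isClosed_irreducibleComponent
    rw [Set.singleton_subset_iff]
    exact hxC
  rw [← h6]
  exact hC

end top

section elem
variable {k : Type u} [Field k] [IsAlgClosed k] {n d : ℕ}
variable {b : Fin d → MvPolynomial (Fin n) k} {K : Type u} [Field K] [Algebra k K]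

/-- if the generic subscheme is supported at one point then the component is elementary -/
theorem elementary_of_value (hd : 0 < d) (c₀ : Chart k b K)
    (hmin : RingHom.ker (clf c₀) ∈ minimalPrimes (AR k b))
    (h : ∀ i : Fin n, ∃ (a : K) (N : ℕ),
      ((1 : K) ⊗ₜ[k] (X i : MvPolynomial (Fin n) k) - a ⊗ₜ[k] 1) ^ N ∈ c₀.ideal) :
    ∃ Z ∈ irreducibleComponents (hilb k (MvPolynomial (Fin n) k) d).H,
      IsElementary (hilb k (MvPolynomial (Fin n) k) d) Z := by
  refine ⟨_, component_of_minimal c₀ hmin, Set.range (chartι k (Idx.single b)),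
    (chartι k (Idx.single b)).isOpenEmbedding.isOpen_range,
    ⟨chartι k (Idx.single b) (zK c₀), subset_closure rfl, zK c₀, rfl⟩, ?_⟩
  intro f hf
  let y : Spec (CommRingCat.of k) := (⟨⊥, Ideal.isPrime_bot⟩ : PrimeSpectrum k)
  obtain ⟨hy1, o, hoy⟩ := hf ⟨y, rfl⟩
  have hloc : chartι k (Idx.single b) o ∈
      (hilb k (MvPolynomial (Fin n) k) d).locus
        (fun I => I = (hilb k (MvPolynomial (Fin n) k) d).idealOf f) := by
    rw [hoy]
    exact ⟨f, ⟨y, rfl⟩, rfl⟩
  obtain ⟨c, hc, rfl⟩ := exists_chart_in _ o hloc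
  have hle : RingHom.ker (clf c₀) ≤ RingHom.ker (clf c) := by
    have h1 : zp c ∈ closure {zK c₀} := by
      have h9 := (chartι k (Idx.single b)).isOpenEmbedding.isInducing.closure_eq_preimage_closure_image
        {zK c₀}
      rw [Set.image_singleton] at h9
      rw [h9, Set.mem_preimage, hoy]
      exact hy1
    exact (closure_zK' c₀ (zp c)).1 h1
  have hval : ∀ i : Fin n, ∃ (a' : k) (N : ℕ), (X i - C a' : MvPolynomial (Fin n) k) ^ N ∈ c.ker := by
    intro i
    obtain ⟨a, N, ha⟩ := h i
    obtain ⟨a', ha'⟩ := value_specializes hd c₀ c (fun f hf => hle hf) (X i) a N ha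
    exact ⟨a', N, ha'⟩
  choose v N hN using hval
  refine ⟨v, ?_⟩
  rw [← hc]
  have hone : (1 : MvPolynomial (Fin n) k) ∉ c.ker := by
    intro h1
    apply one_notMem hd c
    have h2 : (1 : k) ⊗ₜ[k] (1 : MvPolynomial (Fin n) k) ∈ c.ideal := h1
    exact h2
  symm
  apply (pt_maximal v).eq_of_le
  · intro h0
    apply hone
    have h2 : (1 : MvPolynomial (Fin n) k) ∈ c.ker.radical := by rw [h0]; trivial
    obtain ⟨m, hm⟩ := h2
    rwa [one_pow] at hm
  · unfold pointIdeal
    rw [Ideal.span_le]
    rintro _ ⟨i, rfl⟩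
    exact ⟨N i, hN i⟩

end elem

end Pool.Agent.W455.Elem
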