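import Mathlib
import Pool.Agent.W455.Elem.Rk

set_option autoImplicit false
set_option linter.unusedSectionVars false

open scoped TensorProduct
open Pool.Agent.Helper226

universe u

namespace Pool.Agent.W455.Elem

section up
variable {k : Type u} [Field k] {B : Type u} [CommRing B] [Algebra k B] {d : ℕ}
variable {b : Fin d → B} {K : Type u} [Field K] [Algebra k K]

lemma encard_genFin_le (s : Finset B) :
    (genFin (k := k) b s).encard ≤ ((d + s.card * (d * d) : ℕ) : ℕ∞) := by
  unfold genFin
  refine (Set.encard_union_le _ _).trans ?_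
  rw [Nat.cast_add]
  refine add_le_add ?_ ?_
  · rw [← Set.image_univ]
    refine (Set.encard_image_le _ _).trans ?_
    rw [Set.encard_univ]
    simp
  · refine (Set.encard_image_le _ _).trans ?_
    have h1 : ((s : Set B) ×ˢ (Set.univ : Set (Fin d × Fin d))) =
        ((s ×ˢ (Finset.univ : Finset (Fin d × Fin d)) : Finset (B × (Fin d × Fin d))) :
          Set (B × (Fin d × Fin d))) := by
      simp
    rw [h1, Set.encard_coe_eq_coe_finsetCard, Finset.card_product, Finset.card_univ,
      Fintype.card_prod, Fintype.card_fin]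

lemma dlt_le (c : Chart k b K) (s : Finset B) (hs : Algebra.adjoin k (s : Set B) = ⊤) :
    dlt c ≤ ((d + s.card * (d * d) : ℕ) : ℕ∞) := by
  refine le_trans ?_ (encard_genFin_le (k := k) (b := b) s)
  refine le_trans ?_ (Set.encard_image_le c.lift _)
  refine le_trans ?_ (rk_le_encard k (c.lift '' genFin b s))
  apply rk_le_of_algebraic
  rintro _ ⟨⟨x, j⟩, rfl⟩
  have h1 := q_mem_adjoin (k := k) b s hs x 1
    (fun l => Algebra.subset_adjoin (Or.inl ⟨l, rfl⟩)) j
  rw [one_mul] at h1
  have h2 : c.q x j ∈ Algebra.adjoin k (c.lift '' genFin b s) := by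
    rw [← AlgHom.map_adjoin]
    refine ⟨_, h1, ?_⟩
    rw [univChart_q]
    exact c.lift_mk x j
  exact isAlgebraic_algebraMap (A := K) (⟨_, h2⟩ : Algebra.adjoin k (c.lift '' genFin b s))

end up

end Pool.Agent.W455.Elem
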