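import Mathlib
import Pool.Agent.W455.Elem.Comp
import Pool.Agent.W455.Elem.Up

set_option autoImplicit false
set_option linter.unusedSectionVars false

open scoped TensorProduct
open CategoryTheory AlgebraicGeometry MvPolynomial
open Pool.Agent.Helper226 Pool.Agent.W455.Cub

universe u

namespace Pool.Agent.W455.Elem

section gen
variable {k : Type u} [Field k] {B : Type u} [CommRing B] [Algebra k B] {d : ℕ}

/-- a minimal prime of a chart is the kernel of the classifying map of a chart datum over an
algebraically closed field -/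
lemma exists_generic_chart (b : Fin d → B) (p : Ideal (AR k b)) (hp : p.IsPrime) :
    ∃ (K : Type u) (_ : Field K) (_ : Algebra k K) (_ : IsAlgClosed K) (c₀ : Chart k b K),
      RingHom.ker (clf c₀) = p := by
  let L := FractionRing (AR k b ⧸ p)
  let K := AlgebraicClosure L
  let φ : AR k b →ₐ[k] K := ((Algebra.ofId L K).restrictScalars k).comp
    (((Algebra.ofId (AR k b ⧸ p) L).restrictScalars k).comp (Ideal.Quotient.mkₐ k p))
  have hφ : ∀ f, φ f = algebraMap L K (algebraMap (AR k b ⧸ p) L (Ideal.Quotient.mk p f)) :=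
    fun f => rfl
  refine ⟨K, inferInstance, inferInstance, inferInstance, (uc k b).map φ, ?_⟩
  have h1 : clf ((uc k b).map φ) = φ := by
    apply hom_ext_uc
    rw [uc_map_clf]
  rw [h1]
  ext f
  rw [RingHom.mem_ker, hφ]
  constructor
  · intro h0
    have h2 : algebraMap (AR k b ⧸ p) L (Ideal.Quotient.mk p f) = 0 :=
      (algebraMap L K).injective (by rw [h0, map_zero])
    have h3 : Ideal.Quotient.mk p f = 0 :=
      (IsFractionRing.injective (AR k b ⧸ p) L) (by rw [h2, map_zero])
    exact Ideal.Quotient.eq_zero_iff_mem.1 h3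
  · intro h0
    rw [Ideal.Quotient.eq_zero_iff_mem.2 h0, map_zero, map_zero]

end gen

section main
variable {k : Type u} [Field k] [IsAlgClosed k] {n : ℕ}

/-- If there are only finitely many elementary components then the transcendence degree of the
field of definition of a subscheme is bounded linearly in the length. -/
theorem linear_bound (R : ℕ)
    (hno : ∀ d, R < d → ¬ ∃ Z ∈ irreducibleComponents (hilb k (MvPolynomial (Fin n) k) d).H,
      IsElementary (hilb k (MvPolynomial (Fin n) k) d) Z) (d : ℕ) :
    ∀ (b : Fin d → MvPolynomial (Fin n) k) (K : Type u) [Field K] [Algebra k K]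
      (c : Chart k b K), dlt c ≤ (((1 + n * R) * d : ℕ) : ℕ∞) := by
  classical
  induction d using Nat.strong_induction_on with
  | _ d ih =>
  intro b K _ _ c
  by_cases hdR : d ≤ R
  · have h1 := dlt_le c (Finset.univ.image (X : Fin n → MvPolynomial (Fin n) k)) (by
      rw [Finset.coe_image, Finset.coe_univ, Set.image_univ]
      exact MvPolynomial.adjoin_range_X)
    refine h1.trans ?_
    rw [Nat.cast_le]
    have h2 : (Finset.univ.image (X : Fin n → MvPolynomial (Fin n) k)).card ≤ n := by
      refine Finset.card_image_le.trans ?_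
      simp
    calc d + (Finset.univ.image (X : Fin n → MvPolynomial (Fin n) k)).card * (d * d)
        ≤ d + n * (R * d) := by
          gcongr
      _ = (1 + n * R) * d := by ring
  · push Not at hdR
    have hd : 0 < d := by omega
    have hkp : (RingHom.ker (clf c)).IsPrime := RingHom.ker_isPrime (clf c)
    obtain ⟨p₀, hp₀, hle⟩ := Ideal.exists_minimalPrimes_le (I := (⊥ : Ideal (AR k b)))
      (J := RingHom.ker (clf c)) bot_le
    have hp₀' : p₀ ∈ minimalPrimes (AR k b) := hp₀
    have hprime : p₀.IsPrime := hp₀.1.1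
    obtain ⟨K₀, _, _, _, c₀, hc₀⟩ := exists_generic_chart b p₀ hprime
    have hle' : ∀ f, clf c₀ f = 0 → clf c f = 0 := by
      intro f hf
      apply hle
      rw [← hc₀]
      exact hf
    refine (dlt_le_of_ker_le c₀ c hle').trans ?_
    by_cases hval : ∀ i : Fin n, ∃ (a : K₀) (N : ℕ),
      ((1 : K₀) ⊗ₜ[k] (X i : MvPolynomial (Fin n) k) - a ⊗ₜ[k] 1) ^ N ∈ c₀.ideal
    · exact absurd (elementary_of_value hd c₀ (by rw [hc₀]; exact hp₀') hval) (hno d hdR)
    · push Not at hval
      obtain ⟨i, hi⟩ := hval
      obtain ⟨d₁, d₂, b₁, b₂, c₁, c₂, h1, h2, h3, h4⟩ := chart_split c₀ (X i) hi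
      refine (dlt_inf_le c₀ c₁ c₂ h4).trans ?_
      refine (add_le_add (ih d₁ (by omega) b₁ K₀ c₁) (ih d₂ (by omega) b₂ K₀ c₂)).trans ?_
      rw [← Nat.cast_add, Nat.cast_le, ← mul_add, h3]

end main

end Pool.Agent.W455.Elem
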