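import Mathlib
import Pool.Agent.W455.Elem.Rk

set_option autoImplicit false
set_option linter.unusedSectionVars false

open scoped TensorProduct
open MvPolynomial
open Pool.Agent.Helper226

universe u

namespace Pool.Agent.W455.Elem

/-- the exponents of degree less than `s` -/
abbrev LT (n s : ℕ) : Type := {α : Fin n →₀ ℕ // α.degree < s}

instance (n s : ℕ) : Finite (LT n s) := by
  have h : {α : Fin n →₀ ℕ | α.degree < s}.Finite := by
    have h1 : {α : Fin n →₀ ℕ | α.degree < s} ⊆ {α : Fin n →₀ ℕ | α.degree ≤ s} :=
      fun α (hα : α.degree < s) => (le_of_lt hα : α.degree ≤ s)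
    exact (Finsupp.finite_of_degree_le s).subset h1
  exact h

section data
variable (k : Type u) [Field k] (n s : ℕ) {E J : Type} [Fintype E] [Fintype J]
  [DecidableEq E] [DecidableEq J]

/-- the field of the generic coefficients -/
abbrev KF (E J : Type) : Type u := FractionRing (MvPolynomial (E × J) k)

variable (E J) in
/-- the generic coefficients -/
noncomputable def tc (p : E × J) : KF k E J := algebraMap (MvPolynomial (E × J) k) _ (X p)

lemma tc_indep : AlgebraicIndependent k (tc k E J) := by
  have h1 : AlgebraicIndependent k (X : E × J → MvPolynomial (E × J) k) :=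
    MvPolynomial.algebraicIndependent_X _ _
  exact h1.map' (f := IsScalarTower.toAlgHom k (MvPolynomial (E × J) k) (KF k E J))
    (IsFractionRing.injective _ _)

variable (e : E → (Fin n →₀ ℕ)) (f : J → (Fin n →₀ ℕ))

variable {k n s} in
/-- the coordinate functionals -/
noncomputable def qf (e : E → (Fin n →₀ ℕ)) (f : J → (Fin n →₀ ℕ)) :
    MvPolynomial (Fin n) k →ₗ[k] (LT n s ⊕ J → KF k E J) where
  toFun F := Sum.elim (fun α => algebraMap k _ (F.coeff α.1))
    (fun j => algebraMap k _ (F.coeff (f j)) + ∑ i, tc k E J (i, j) * algebraMap k _ (F.coeff (e i)))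
  map_add' F G := by
    funext l
    rcases l with α | j
    · simp
    · simp only [coeff_add, map_add, Sum.elim_inr, Pi.add_apply, mul_add, Finset.sum_add_distrib]
      ring
  map_smul' a F := by
    funext l
    rcases l with α | j
    · simp [Algebra.smul_def]
    · simp only [MvPolynomial.coeff_smul, smul_eq_mul, map_mul, Sum.elim_inr, RingHom.id_apply,
        Pi.smul_apply]
      rw [Algebra.smul_def, mul_add, Finset.mul_sum]
      refine congrArg₂ _ rfl (Finset.sum_congr rfl fun i _ => ?_)
      ring

/-- the basis monomials -/
def bexp (f : J → (Fin n →₀ ℕ)) : LT n s ⊕ J → (Fin n →₀ ℕ) := Sum.elim (fun α => α.1) f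

variable {k n s e f}

lemma qf_inl (F : MvPolynomial (Fin n) k) (α : LT n s) :
    qf e f F (Sum.inl α) = algebraMap k (KF k E J) (F.coeff α.1) := rfl

lemma qf_inr (F : MvPolynomial (Fin n) k) (j : J) :
    (qf e f F : LT n s ⊕ J → KF k E J) (Sum.inr j) = algebraMap k (KF k E J) (F.coeff (f j)) +
      ∑ i, tc k E J (i, j) * algebraMap k _ (F.coeff (e i)) := rfl

lemma qf_high (he : ∀ i, (e i).degree = s) (hf : ∀ j, (f j).degree = s) (β : Fin n →₀ ℕ)
    (hβ : s < β.degree) (a : k) :
    (qf e f (monomial β a) : LT n s ⊕ J → KF k E J) = 0 := by
  funext l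
  rcases l with α | j
  · rw [qf_inl, coeff_monomial, if_neg, map_zero]
    · rfl
    · rintro rfl
      have := α.2
      omega
  · rw [qf_inr, coeff_monomial, if_neg, map_zero, zero_add]
    · apply Finset.sum_eq_zero
      intro i _
      rw [coeff_monomial, if_neg, map_zero, mul_zero]
      rintro rfl
      have := he i
      omega
    · rintro rfl
      have := hf j
      omega

lemma qf_basis (he : ∀ i, (e i).degree = s) (hf : ∀ j, (f j).degree = s)
    (hfi : Function.Injective f) (hef : ∀ i j, e i ≠ f j) (l : LT n s ⊕ J) [DecidableEq (LT n s ⊕ J)] :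
    (qf e f (monomial (bexp n s f l) 1) : LT n s ⊕ J → KF k E J) = Pi.single l 1 := by
  funext l'
  rcases l with α | j
  · rcases l' with α' | j'
    · rw [qf_inl, bexp, Sum.elim_inl, coeff_monomial, Pi.single_apply]
      by_cases h : α = α'
      · subst h; simp
      · rw [if_neg (fun h0 => h (Subtype.ext h0)), if_neg, map_zero]
        intro h0
        exact h (Sum.inl.inj h0).symm
    · have hne : ¬ (α.1 = f j') := by
        intro h0
        have h1 := α.2
        have h2 := hf j'
        rw [← h0] at h2
        omega
      rw [qf_inr, bexp, Sum.elim_inl, coeff_monomial, if_neg hne,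
        map_zero, zero_add, Pi.single_eq_of_ne (by simp)]
      apply Finset.sum_eq_zero
      intro i _
      rw [coeff_monomial, if_neg, map_zero, mul_zero]
      intro h0
      have h1 := α.2
      have h2 := he i
      rw [← h0] at h2
      omega
  · rcases l' with α' | j'
    · have hne : ¬ (f j = α'.1) := by
        intro h0
        have h1 := α'.2
        have h2 := hf j
        rw [h0] at h2
        omega
      rw [qf_inl, bexp, Sum.elim_inr, coeff_monomial, if_neg hne, map_zero,
        Pi.single_eq_of_ne (by simp)]
    · rw [qf_inr, bexp, Sum.elim_inr, Pi.single_apply, coeff_monomial]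
      have h3 : ∑ i, tc k E J (i, j') * algebraMap k (KF k E J)
          ((monomial (f j) (1 : k)).coeff (e i)) = 0 := by
        apply Finset.sum_eq_zero
        intro i _
        rw [coeff_monomial, if_neg (fun h0 => hef i j h0.symm), map_zero, mul_zero]
      rw [h3, add_zero]
      by_cases h : j = j'
      · subst h; simp
      · rw [if_neg (fun h0 => h (hfi h0)), if_neg, map_zero]
        intro h0
        exact h (Sum.inr.inj h0).symm

variable [Fintype (LT n s ⊕ J)]

lemma qf_mul (he : ∀ i, (e i).degree = s) (hf : ∀ j, (f j).degree = s)
    (hfi : Function.Injective f) (hef : ∀ i j, e i ≠ f j) (x y : MvPolynomial (Fin n) k) :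
    (qf e f (x * y) : LT n s ⊕ J → KF k E J) =
      ∑ l, (qf e f x : LT n s ⊕ J → KF k E J) l • qf e f (monomial (bexp n s f l) 1 * y) := by
  classical
  induction x using MvPolynomial.induction_on' with
  | add x x' hx hx' =>
    rw [add_mul, map_add, hx, hx', map_add, ← Finset.sum_add_distrib]
    refine Finset.sum_congr rfl fun l _ => ?_
    rw [Pi.add_apply, add_smul]
  | monomial β a =>
    induction y using MvPolynomial.induction_on' with
    | add y y' hy hy' =>
      rw [mul_add, map_add, hy, hy', ← Finset.sum_add_distrib]
      refine Finset.sum_congr rfl fun l _ => ?_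
      rw [mul_add, map_add, smul_add]
    | monomial γ a' =>
      rcases lt_trichotomy β.degree s with h | h | h
      · have h1 : (monomial β a : MvPolynomial (Fin n) k) =
            a • monomial (bexp n s f (Sum.inl (⟨β, h⟩ : LT n s) : LT n s ⊕ J)) 1 := by
          rw [smul_monomial, smul_eq_mul, mul_one]
          rfl
        rw [h1, smul_mul_assoc, map_smul, map_smul, qf_basis he hf hfi hef]
        rw [Finset.sum_eq_single (Sum.inl (⟨β, h⟩ : LT n s))]
        · rw [Pi.smul_apply, Pi.single_eq_same, smul_assoc, one_smul]
        · intro l _ hl
          rw [Pi.smul_apply, Pi.single_eq_of_ne hl, smul_zero, zero_smul]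
        · intro h0
          exact absurd (Finset.mem_univ _) h0
      · by_cases hγ : γ = 0
        · subst hγ
          have h2 : ∀ l, (qf e f (monomial (bexp n s f l) 1 * monomial 0 a') :
              LT n s ⊕ J → KF k E J) = a' • Pi.single l 1 := by
            intro l
            rw [← qf_basis he hf hfi hef l, ← map_smul]
            congr 1
            rw [monomial_mul, add_zero, one_mul, smul_monomial, smul_eq_mul, mul_one]
          simp only [h2]
          have h3 : (monomial β a * monomial 0 a' : MvPolynomial (Fin n) k) =
              a' • monomial β a := by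
            rw [monomial_mul, add_zero, smul_monomial, smul_eq_mul, mul_comm]
          rw [h3, map_smul]
          funext l
          rw [Finset.sum_apply, Finset.sum_eq_single l]
          · rw [Pi.smul_apply, Pi.smul_apply, Pi.smul_apply, Pi.single_eq_same, smul_eq_mul,
              mul_smul_comm, mul_one]
          · intro l' _ hl
            rw [Pi.smul_apply, Pi.smul_apply, Pi.single_eq_of_ne hl.symm, smul_zero, smul_zero]
          · intro h0
            exact absurd (Finset.mem_univ _) h0
        · have hγ' : 0 < γ.degree := by
            rw [Nat.pos_iff_ne_zero]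
            intro h0
            exact hγ ((Finsupp.degree_eq_zero_iff γ).1 h0)
          rw [monomial_mul, qf_high he hf]
          · symm
            apply Finset.sum_eq_zero
            intro l _
            rcases l with α | j
            · have h4 : (qf e f (monomial β a) : LT n s ⊕ J → KF k E J) (Sum.inl α) = 0 := by
                rw [qf_inl, coeff_monomial, if_neg, map_zero]
                rintro rfl
                have := α.2
                omega
              rw [h4, zero_smul]
            · have h4 : (qf e f (monomial (bexp n s f (Sum.inr j)) 1 * monomial γ a') :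
                  LT n s ⊕ J → KF k E J) = 0 := by
                rw [monomial_mul, qf_high he hf]
                rw [bexp, Sum.elim_inr, map_add, hf j]
                omega
              rw [h4, smul_zero]
          · rw [map_add]
            omega
      · rw [monomial_mul, qf_high he hf]
        · symm
          apply Finset.sum_eq_zero
          intro l _
          rw [qf_high he hf β h, Pi.zero_apply, zero_smul]
        · rw [map_add]
          omega

/-- the generic point of a family of very compressed algebras -/
theorem exists_vc (he : ∀ i, (e i).degree = s) (hf : ∀ j, (f j).degree = s)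
    (hei : Function.Injective e) (hfi : Function.Injective f) (hef : ∀ i j, e i ≠ f j) :
    ∃ (b : Fin (Fintype.card (LT n s ⊕ J)) → MvPolynomial (Fin n) k) (c : Chart k b (KF k E J)),
      ENat.card (E × J) ≤ dlt c := by
  classical
  let ε := Fintype.equivFin (LT n s ⊕ J)
  let b : Fin (Fintype.card (LT n s ⊕ J)) → MvPolynomial (Fin n) k :=
    fun l => monomial (bexp n s f (ε.symm l)) 1
  let c : Chart k b (KF k E J) :=
    { q := (LinearMap.funLeft k (KF k E J) ε.symm) ∘ₗ (qf e f)
      q_b := by
        intro i
        funext l
        rw [LinearMap.comp_apply, LinearMap.funLeft_apply, qf_basis he hf hfi hef]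
        by_cases h : l = i
        · subst h; simp
        · rw [Pi.single_eq_of_ne h, Pi.single_eq_of_ne]
          intro h0
          exact h (ε.symm.injective h0)
      q_mul := by
        intro x y
        funext l
        rw [LinearMap.comp_apply, LinearMap.funLeft_apply, qf_mul he hf hfi hef, Finset.sum_apply,
          Finset.sum_apply]
        refine (Equiv.sum_comp ε.symm _).symm.trans ?_
        rfl }
  refine ⟨b, c, ?_⟩
  apply le_rk_of_algebraicIndependent k (tc_indep k)
  rintro ⟨i, j⟩
  refine ⟨(monomial (e i) 1, ε (Sum.inr j)), ?_⟩
  change (qf e f (monomial (e i) 1) : LT n s ⊕ J → KF k E J) (ε.symm (ε (Sum.inr j))) = _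
  rw [Equiv.symm_apply_apply, qf_inr, coeff_monomial, if_neg (hef i j), map_zero, zero_add,
    Finset.sum_eq_single i]
  · rw [coeff_monomial, if_pos rfl, map_one, mul_one]
  · intro i' _ hi
    rw [coeff_monomial, if_neg, map_zero, mul_zero]
    intro h0
    exact hi (hei h0).symm
  · intro h0
    exact absurd (Finset.mem_univ _) h0

end data

end Pool.Agent.W455.Elem
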