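import Mathlib
import Pool.Agent.W455.Elem.Induct
import Pool.Agent.W455.Elem.Lower
import Pool.Agent.W455.Cub.Trans

set_option autoImplicit false
set_option linter.unusedSectionVars false

open scoped TensorProduct
open CategoryTheory AlgebraicGeometry MvPolynomial
open Pool.Agent.Helper226 Pool.Agent.W455.Cub Pool.Agent.Helper413.Gal

universe u

namespace Pool.Agent.W455.Elem

lemma card_LT (s : ℕ) [Fintype (LT 3 s)] : Fintype.card (LT 3 s) ≤ s ^ 3 := by
  have h : ∀ α : LT 3 s, ∀ i, α.1 i < s := fun α i =>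
    lt_of_le_of_lt (Finsupp.le_degree i α.1) α.2
  let φ : LT 3 s → (Fin 3 → Fin s) := fun α i => ⟨α.1 i, h α i⟩
  have hφ : Function.Injective φ := by
    intro α β hαβ
    apply Subtype.ext
    ext i
    have := congrFun hαβ i
    exact congrArg Fin.val this
  have := Fintype.card_le_of_injective φ hφ
  simpa using this

/-- first family of exponents -/
noncomputable def ee (u : ℕ) (i : Fin u × Fin u) : Fin 3 →₀ ℕ :=
  Finsupp.equivFunOnFinite.symm ![(i.1 : ℕ), (i.2 : ℕ), 3 * u - i.1 - i.2]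

/-- second family of exponents -/
noncomputable def ff (u : ℕ) (i : Fin u × Fin u) : Fin 3 →₀ ℕ :=
  Finsupp.equivFunOnFinite.symm ![u + (i.1 : ℕ), (i.2 : ℕ), 2 * u - i.1 - i.2]

lemma ee_deg (u : ℕ) (i : Fin u × Fin u) : (ee u i).degree = 3 * u := by
  rw [Finsupp.degree_eq_sum, Fin.sum_univ_three]
  simp only [ee, Finsupp.equivFunOnFinite_symm_apply_apply, Matrix.cons_val]
  have h1 := i.1.2
  have h2 := i.2.2
  omega

lemma ff_deg (u : ℕ) (i : Fin u × Fin u) : (ff u i).degree = 3 * u := by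
  rw [Finsupp.degree_eq_sum, Fin.sum_univ_three]
  simp only [ff, Finsupp.equivFunOnFinite_symm_apply_apply, Matrix.cons_val]
  have h1 := i.1.2
  have h2 := i.2.2
  omega

lemma ee_inj (u : ℕ) : Function.Injective (ee u) := by
  intro i j h
  have h0 := DFunLike.congr_fun h 0
  have h1 := DFunLike.congr_fun h 1
  simp only [ee, Finsupp.equivFunOnFinite_symm_apply_apply, Matrix.cons_val] at h0 h1
  exact Prod.ext (Fin.ext h0) (Fin.ext h1)

lemma ff_inj (u : ℕ) : Function.Injective (ff u) := by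
  intro i j h
  have h0 := DFunLike.congr_fun h 0
  have h1 := DFunLike.congr_fun h 1
  simp only [ff, Finsupp.equivFunOnFinite_symm_apply_apply, Matrix.cons_val] at h0 h1
  exact Prod.ext (Fin.ext (by omega)) (Fin.ext h1)

lemma ee_ne_ff (u : ℕ) (i j : Fin u × Fin u) : ee u i ≠ ff u j := by
  intro h
  have h0 := DFunLike.congr_fun h 0
  simp only [ee, ff, Finsupp.equivFunOnFinite_symm_apply_apply, Matrix.cons_val] at h0
  have h1 := i.1.2
  omega

section main
variable {k : Type u} [Field k] [IsAlgClosed k]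

theorem exists_elementary (R : ℕ) :
    ∃ d, R < d ∧ ∃ Z ∈ irreducibleComponents (hilb k (MvPolynomial (Fin 3) k) d).H,
      IsElementary (hilb k (MvPolynomial (Fin 3) k) d) Z := by
  classical
  by_contra hcon
  have hno : ∀ d, R < d → ¬ ∃ Z ∈ irreducibleComponents (hilb k (MvPolynomial (Fin 3) k) d).H,
      IsElementary (hilb k (MvPolynomial (Fin 3) k) d) Z := fun d hd h => hcon ⟨d, hd, h⟩
  have hb := linear_bound (k := k) (n := 3) R hno
  set M := 1 + 3 * R with hM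
  set u := 28 * M + 1 with hu
  have : Fintype (LT 3 (3 * u)) := Fintype.ofFinite _
  obtain ⟨b, c, hc⟩ := exists_vc (k := k) (n := 3) (s := 3 * u) (e := ee u) (f := ff u)
    (ee_deg u) (ff_deg u) (ee_inj u) (ff_inj u) (ee_ne_ff u)
  have h1 := hc.trans (hb _ b _ c)
  rw [ENat.card_eq_coe_fintype_card, Nat.cast_le] at h1
  simp only [Fintype.card_prod, Fintype.card_fin, Fintype.card_sum] at h1
  have h2 := card_LT (3 * u)
  have h3 : u * u * (u * u) ≤ M * ((3 * u) ^ 3 + u * u) :=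
    h1.trans (Nat.mul_le_mul_left _ (Nat.add_le_add_right h2 _))
  have h4 : u * u ≤ u ^ 3 := by
    have : 1 ≤ u := by omega
    calc u * u = u ^ 2 := by ring
      _ ≤ u ^ 3 := Nat.pow_le_pow_right this (by norm_num)
  have h5 : M * ((3 * u) ^ 3 + u * u) ≤ 28 * M * u ^ 3 := by
    calc M * ((3 * u) ^ 3 + u * u) ≤ M * ((3 * u) ^ 3 + u ^ 3) := by gcongr
      _ = 28 * M * u ^ 3 := by ring
  have h6 : u * u * (u * u) = (28 * M + 1) * u ^ 3 := by
    conv_lhs => rw [show u * u * (u * u) = u * u ^ 3 by ring]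
  have h7 : 0 < u ^ 3 := by positivity
  rw [h6] at h3
  have h8 := h3.trans h5
  rw [add_mul, one_mul] at h8
  omega

end main

section trans
variable {k : Type u} [Field k] {n d : ℕ}

/-- elementary components do not depend on the choice of the Hilbert scheme -/
theorem exists_trans (𝓗₁ 𝓗₂ : HilbertScheme k (MvPolynomial (Fin n) k) d)
    (h : ∃ Z ∈ irreducibleComponents 𝓗₂.H, IsElementary 𝓗₂ Z) :
    ∃ Z ∈ irreducibleComponents 𝓗₁.H, IsElementary 𝓗₁ Z := by
  obtain ⟨Z, hZ, U, hU, hne, hall⟩ := h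
  set e := hom12 𝓗₁ 𝓗₂ with he
  refine ⟨e ⁻¹' Z, ?_, e ⁻¹' U, hU.preimage e.continuous, ?_, ?_⟩
  · apply preimage_mem_irreducibleComponents hZ e.isOpenEmbedding
    rw [e.range_coe, Set.inter_univ]
    exact hZ.1.1
  · obtain ⟨x, hx1, hx2⟩ := hne
    obtain ⟨y, rfl⟩ := e.surjective x
    exact ⟨y, hx1, hx2⟩
  · intro f hf
    rw [← idealOf_tr 𝓗₁ 𝓗₂]
    apply hall
    rw [range_tr]
    rintro _ ⟨x, hx, rfl⟩
    exact hf hx

end trans

/-- the main theorem -/
theorem infinitely_many (k : Type u) [Field k] [IsAlgClosed k] :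
    (∀ d, Nonempty (HilbertScheme k (MvPolynomial (Fin 3) k) d)) ∧
    ∀ 𝓗 : (d : ℕ) → HilbertScheme k (MvPolynomial (Fin 3) k) d,
      (∀ R, ∃ d, R < d ∧ ∃ Z ∈ irreducibleComponents (𝓗 d).H, IsElementary (𝓗 d) Z) ∧
      {p : (d : ℕ) × Set (𝓗 d).H |
        p.2 ∈ irreducibleComponents (𝓗 p.1).H ∧ IsElementary (𝓗 p.1) p.2}.Infinite := by
  refine ⟨fun d => ⟨hilb k (MvPolynomial (Fin 3) k) d⟩, fun 𝓗 => ?_⟩
  have h1 : ∀ R, ∃ d, R < d ∧ ∃ Z ∈ irreducibleComponents (𝓗 d).H, IsElementary (𝓗 d) Z := by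
    intro R
    obtain ⟨d, hd, h⟩ := exists_elementary (k := k) R
    exact ⟨d, hd, exists_trans (𝓗 d) _ h⟩
  refine ⟨h1, ?_⟩
  intro hfin
  obtain ⟨R, hR⟩ := (hfin.image (fun p => p.1)).bddAbove
  obtain ⟨d, hd, Z, hZ, hel⟩ := h1 R
  have := hR ⟨⟨d, Z⟩, ⟨hZ, hel⟩, rfl⟩
  exact absurd this (not_le.2 hd)

end Pool.Agent.W455.Elem
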